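import Mathlib

set_option autoImplicit false

namespace W206.Tau

open Polynomial

universe u

/-- `c` is the result of one of the operations `+`, `-`, `×` on `a`, `b`. -/
def Op {R : Type u} [CommRing R] (a b c : R) : Prop := c = a + b ∨ c = a - b ∨ c = a * b

/-- from the set `S` all elements of `T` can be reached by `n` operations. -/
def Gen {R : Type u} [CommRing R] : ℕ → Set R → Set R → Prop
  | 0, S, T => T ⊆ S
  | n + 1, S, T => ∃ a ∈ S, ∃ b ∈ S, ∃ c, Op a b c ∧ Gen n (insert c S) T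

section basics

variable {R : Type u} [CommRing R] {R' : Type u} [CommRing R']

lemma gen_mono : ∀ (n : ℕ) {S S' T T' : Set R}, S ⊆ S' → T' ⊆ T → Gen n S T → Gen n S' T'
  | 0, _, _, _, _, hS, hT, h => fun _ hx => hS (h (hT hx))
  | n + 1, _, _, _, _, hS, hT, h => by
      obtain ⟨a, ha, b, hb, c, hc, h⟩ := h
      exact ⟨a, hS ha, b, hS hb, c, hc, gen_mono n (Set.insert_subset_insert hS) hT h⟩

lemma gen_keep : ∀ (n : ℕ) {S T : Set R}, Gen n S T → Gen n S (S ∪ T)
  | 0, _, _, h => fun _ hx => hx.elim id (fun hx => h hx)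
  | n + 1, _, _, h => by
      obtain ⟨a, ha, b, hb, c, hc, h⟩ := h
      refine ⟨a, ha, b, hb, c, hc, gen_mono n le_rfl ?_ (gen_keep n h)⟩
      exact Set.union_subset_union_left _ (Set.subset_insert _ _)

lemma gen_trans : ∀ (n : ℕ) {m : ℕ} {S T U : Set R}, Gen n S T → Gen m (S ∪ T) U →
    Gen (n + m) S U
  | 0, m, S, T, U, h, h' => by
      rw [Nat.zero_add]
      exact gen_mono m (Set.union_subset le_rfl h) le_rfl h'
  | n + 1, m, S, T, U, h, h' => by
      obtain ⟨a, ha, b, hb, c, hc, h⟩ := h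
      rw [Nat.add_right_comm]
      refine ⟨a, ha, b, hb, c, hc, ?_⟩
      refine gen_trans n h (gen_mono m ?_ le_rfl h')
      exact Set.union_subset_union_left _ (Set.subset_insert _ _)

lemma gen_pad {n m : ℕ} (hnm : n ≤ m) {S T : Set R} (hS : S.Nonempty) (h : Gen n S T) :
    Gen m S T := by
  induction m, hnm using Nat.le_induction with
  | base => exact h
  | succ m _ ih =>
    obtain ⟨x, hx⟩ := hS
    refine ⟨x, hx, x, hx, x + x, Or.inl rfl, ?_⟩
    exact gen_mono m (Set.subset_insert _ _) le_rfl ih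

lemma Op.map {a b c : R} (φ : R →+* R') (h : Op a b c) : Op (φ a) (φ b) (φ c) := by
  rcases h with h | h | h
  · exact Or.inl (by rw [h, map_add])
  · exact Or.inr (Or.inl (by rw [h, map_sub]))
  · exact Or.inr (Or.inr (by rw [h, map_mul]))

lemma gen_map (φ : R →+* R') : ∀ (n : ℕ) {S T : Set R}, Gen n S T → Gen n (φ '' S) (φ '' T)
  | 0, _, _, h => Set.image_mono h
  | n + 1, _, _, h => by
      obtain ⟨a, ha, b, hb, c, hc, h⟩ := h
      refine ⟨φ a, ⟨a, ha, rfl⟩, φ b, ⟨b, hb, rfl⟩, φ c, hc.map φ, ?_⟩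
      rw [← Set.image_insert_eq]
      exact gen_map φ n h

lemma gen_one {S : Set R} {a b c : R} (ha : a ∈ S) (hb : b ∈ S) (hc : Op a b c) :
    Gen 1 S (insert c S) :=
  ⟨a, ha, b, hb, c, hc, le_rfl⟩

/-- adding one more element, always keeping everything -/
lemma gen_add {n : ℕ} {S T : Set R} (h : Gen n S T) {a b c : R} (ha : a ∈ S ∪ T)
    (hb : b ∈ S ∪ T) (hc : Op a b c) : Gen (n + 1) S (insert c (S ∪ T)) :=
  gen_trans n h (gen_one ha hb hc)

/-- a finite family of elements, each reached by one operation -/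
lemma gen_family {S : Set R} (m : ℕ) (f : ℕ → R)
    (h : ∀ i < m, ∃ a ∈ S, ∃ b ∈ S, Op a b (f i)) :
    Gen m S (S ∪ {x | ∃ i < m, f i = x}) := by
  induction m with
  | zero =>
    rintro x (hx | ⟨i, hi, _⟩)
    · exact hx
    · omega
  | succ m ih =>
    have h1 := ih (fun i hi => h i (by omega))
    obtain ⟨a, ha, b, hb, hc⟩ := h m (by omega)
    refine gen_mono _ le_rfl ?_ (gen_add h1 (Or.inl ha) (Or.inl hb) hc)
    rintro x (hx | ⟨i, hi, rfl⟩)
    · exact Or.inr (Or.inl hx)
    · rcases Nat.lt_succ_iff_lt_or_eq.mp hi with h2 | h2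
      · exact Or.inr (Or.inr (Or.inr ⟨i, h2, rfl⟩))
      · subst h2; exact Or.inl rfl

/-- first elements of a sequence -/
def fst' (p : ℕ → R) (s : ℕ) : Set R := {x | ∃ i < s, p i = x}

lemma gen_of_fun (p : ℕ → R) : ∀ (n s : ℕ)
    (_ : ∀ i, s ≤ i → i < s + n → ∃ j k, j < i ∧ k < i ∧ Op (p j) (p k) (p i)),
    Gen n (fst' p s) (fst' p (s + n))
  | 0, _, _ => le_rfl
  | n + 1, s, h => by
      obtain ⟨j, k, hj, hk, hop⟩ := h s le_rfl (by omega)
      refine ⟨p j, ⟨j, hj, rfl⟩, p k, ⟨k, hk, rfl⟩, p s, hop, ?_⟩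
      have h1 := gen_of_fun p n (s + 1) (fun i hi hi' => h i (by omega) (by omega))
      have e : s + 1 + n = s + (n + 1) := by omega
      rw [e] at h1
      refine gen_mono n ?_ le_rfl h1
      rintro x ⟨i, hi, rfl⟩
      rcases Nat.lt_succ_iff_lt_or_eq.mp hi with h2 | h2
      · exact Or.inr ⟨i, h2, rfl⟩
      · subst h2; exact Or.inl rfl

lemma fun_of_gen : ∀ (n s : ℕ) (p : ℕ → R) (S T : Set R), S ⊆ fst' p s → Gen n S T →
    ∃ p' : ℕ → R, (∀ i < s, p' i = p i) ∧
      (∀ i, s ≤ i → i < s + n → ∃ j k, j < i ∧ k < i ∧ Op (p' j) (p' k) (p' i)) ∧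
      T ⊆ fst' p' (s + n)
  | 0, s, p, S, T, hS, h => ⟨p, fun _ _ => rfl, fun i h1 h2 => by omega, fun x hx => hS (h hx)⟩
  | n + 1, s, p, S, T, hS, h => by
      obtain ⟨a, ha, b, hb, c, hc, h⟩ := h
      obtain ⟨j, hj, rfl⟩ := hS ha
      obtain ⟨k, hk, rfl⟩ := hS hb
      obtain ⟨p', h1, h2, h3⟩ := fun_of_gen n (s + 1) (Function.update p s c)
        (insert c S) T (by
          rintro x (rfl | hx)
          · exact ⟨s, by omega, by simp⟩
          · obtain ⟨i, hi, rfl⟩ := hS hx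
            exact ⟨i, by omega, by rw [Function.update_of_ne (by omega)]⟩) h
      have h0 : ∀ i < s, p' i = p i := fun i hi => by
        rw [h1 i (by omega), Function.update_of_ne (by omega)]
      refine ⟨p', h0, fun i hi hi' => ?_, ?_⟩
      · rcases Nat.eq_or_lt_of_le hi with h4 | h4
        · subst h4
          refine ⟨j, k, hj, hk, ?_⟩
          rw [h0 j hj, h0 k hk, h1 s (by omega), Function.update_self]
          exact hc
        · exact h2 i (by omega) (by omega)
      · have e : s + 1 + n = s + (n + 1) := by omega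
        rw [← e]; exact h3

/-- natural numbers up to `2 ^ L` cost at most `2 L + 1` operations -/
lemma gen_nat {S : Set R} (h1 : (1 : R) ∈ S) : ∀ (L a : ℕ), a ≤ 2 ^ L →
    Gen (2 * L + 1) S (insert (a : R) S)
  | 0, a, h => by
      have h2 : a = 0 ∨ a = 1 := by simp at h; omega
      rcases h2 with rfl | rfl
      · refine gen_one h1 h1 (Or.inr (Or.inl ?_)); simp
      · refine gen_mono 1 le_rfl ?_ (gen_one h1 h1 (Or.inl rfl : Op (1 : R) 1 (1 + 1)))
        rintro x (rfl | hx)
        · right; simpa using h1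
        · exact Or.inr hx
  | L + 1, a, h => by
      have hb := gen_nat h1 L (a / 2) (by rw [pow_succ] at h; omega)
      have h2 := gen_add hb (Or.inr (Or.inl rfl)) (Or.inr (Or.inl rfl))
        (Or.inl rfl : Op ((a / 2 : ℕ) : R) ((a / 2 : ℕ) : R) _)
      have e : 2 * (L + 1) + 1 = (2 * L + 1 + 1) + 1 := by omega
      rw [e]
      rcases Nat.mod_two_eq_zero_or_one a with h3 | h3
      · have e2 : (a : R) = ((a / 2 : ℕ) : R) + ((a / 2 : ℕ) : R) := by
          rw [← Nat.cast_add]; congr 1; omega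
        refine gen_pad (Nat.le_succ _) ⟨1, h1⟩ (gen_mono _ le_rfl ?_ h2)
        rintro x (rfl | hx)
        · left; exact e2
        · exact Or.inr (Or.inl hx)
      · have e2 : (a : R) = (((a / 2 : ℕ) : R) + ((a / 2 : ℕ) : R)) + 1 := by
          rw [← Nat.cast_add, ← Nat.cast_succ]; congr 1; omega
        refine gen_mono _ le_rfl ?_ (gen_add h2 (a := ((a / 2 : ℕ) : R) + ((a / 2 : ℕ) : R))
          (b := 1) (c := (a : R)) (Or.inr (Or.inl rfl)) (Or.inl h1) (Or.inl e2))
        rintro x (rfl | hx)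
        · exact Or.inl rfl
        · exact Or.inr (Or.inl hx)

end basics

end W206.Tau
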