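import Mathlib
import Pool.Agent.W206.Tau.Gen

set_option autoImplicit false

namespace W206.Tau

open Polynomial

/-- `y ^ N * q (a + c / y)` -/
noncomputable def H (a c : ℤ) (N : ℕ) (q : ℤ[X]) : ℤ[X] := reflect N (q.comp (C c * X + C a))

/-- `(y ^ N * q (a + c / y) - q (a) * y ^ N) / c` -/
noncomputable def K (a c : ℤ) (N : ℕ) (q : ℤ[X]) : ℤ[X] :=
  reflect (N - 1) ((q.comp (X + C a)).divX.comp (C c * X))

lemma CX_le (c : ℤ) : (C c * X : ℤ[X]).natDegree ≤ 1 :=
  (natDegree_C_mul_le _ _).trans natDegree_X_le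

variable (a c : ℤ)

lemma natDegree_lin_le : (C c * X + C a : ℤ[X]).natDegree ≤ 1 := natDegree_linear_le

lemma natDegree_comp_le' (q : ℤ[X]) {N : ℕ} (h : q.natDegree ≤ N) :
    (q.comp (C c * X + C a)).natDegree ≤ N := by
  refine natDegree_comp_le.trans ?_
  calc q.natDegree * (C c * X + C a : ℤ[X]).natDegree ≤ q.natDegree * 1 :=
        Nat.mul_le_mul_left _ (natDegree_lin_le a c)
    _ ≤ N := by omega

lemma H_one (N : ℕ) : H a c N 1 = X ^ N := by
  simp [H, reflect_one]

lemma H_X : H a c 1 X = C c + C a * X := by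
  unfold H
  rw [X_comp, reflect_add, reflect_C_mul, reflect_one_X, reflect_C, mul_one, pow_one]

lemma H_add (N : ℕ) (p q : ℤ[X]) : H a c N (p + q) = H a c N p + H a c N q := by
  simp [H, reflect_add]

lemma H_sub (N : ℕ) (p q : ℤ[X]) : H a c N (p - q) = H a c N p - H a c N q := by
  simp [H, reflect_sub]

lemma H_mul {N M : ℕ} {p q : ℤ[X]} (hp : p.natDegree ≤ N) (hq : q.natDegree ≤ M) :
    H a c (N + M) (p * q) = H a c N p * H a c M q := by
  unfold H
  rw [mul_comp, reflect_mul _ _ (natDegree_comp_le' a c p hp) (natDegree_comp_le' a c q hq)]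

lemma H_double {N M : ℕ} {q : ℤ[X]} (hq : q.natDegree ≤ M) :
    H a c (N + M) q = X ^ N * H a c M q := by
  rw [← H_one a c N, ← H_mul a c (p := 1) (by simp) hq, one_mul]

lemma K_spec {N : ℕ} (hN : 1 ≤ N) {q : ℤ[X]} (hq : q.natDegree ≤ N) :
    C c * K a c N q = H a c N q - C (q.eval a) * X ^ N := by
  set D := (q.comp (X + C a)).divX with hD
  have hdeg : (q.comp (X + C a)).natDegree ≤ N := by
    have := natDegree_comp_le' a 1 q hq
    simpa using this
  have h0 : (q.comp (X + C a)).coeff 0 = q.eval a := by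
    rw [coeff_zero_eq_eval_zero, eval_comp]; simp
  have h1 : q.comp (C c * X + C a) = D.comp (C c * X) * (C c * X) + C (q.eval a) := by
    have e : q.comp (C c * X + C a) = (q.comp (X + C a)).comp (C c * X) := by
      rw [comp_assoc]; simp
    rw [e]
    conv_lhs => rw [← divX_mul_X_add (q.comp (X + C a))]
    rw [h0]; simp [hD]
  have h2 : (D.comp (C c * X)).natDegree ≤ N - 1 := by
    refine natDegree_comp_le.trans ?_
    have h3 : D.natDegree = (q.comp (X + C a)).natDegree - 1 := natDegree_divX_eq_natDegree_tsub_one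
    have h4 : (C c * X : ℤ[X]).natDegree ≤ 1 := CX_le _
    calc D.natDegree * (C c * X : ℤ[X]).natDegree ≤ D.natDegree * 1 := Nat.mul_le_mul_left _ h4
      _ ≤ N - 1 := by omega
  have h5 : N = (N - 1) + 1 := by omega
  have h6 : reflect N (D.comp (C c * X) * (C c * X)) = K a c N q * C c := by
    conv_lhs => rw [h5]
    rw [reflect_mul _ _ h2 (CX_le _), reflect_C_mul, reflect_one_X, mul_one]
    rfl
  unfold H
  rw [h1, reflect_add, h6, reflect_C]
  ring

lemma natDegree_K_le {N : ℕ} {q : ℤ[X]} (hq : q.natDegree ≤ N) :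
    (K a c N q).natDegree ≤ N - 1 := by
  have hdeg : (q.comp (X + C a)).natDegree ≤ N := by
    have := natDegree_comp_le' a 1 q hq
    simpa using this
  set D := (q.comp (X + C a)).divX with hD
  have h2 : (D.comp (C c * X)).natDegree ≤ N - 1 := by
    refine natDegree_comp_le.trans ?_
    have h3 : D.natDegree = (q.comp (X + C a)).natDegree - 1 := natDegree_divX_eq_natDegree_tsub_one
    have h4 : (C c * X : ℤ[X]).natDegree ≤ 1 := CX_le _
    calc D.natDegree * (C c * X : ℤ[X]).natDegree ≤ D.natDegree * 1 := Nat.mul_le_mul_left _ h4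
      _ ≤ N - 1 := by omega
  unfold K
  rw [← hD, natDegree_le_iff_coeff_eq_zero]
  intro m hm
  rw [coeff_reflect, revAt_eq_self_of_lt hm]
  exact coeff_eq_zero_of_natDegree_lt (lt_of_le_of_lt h2 hm)

variable {c}

lemma K_one (hc : c ≠ 0) {N : ℕ} (hN : 1 ≤ N) : K a c N 1 = 0 := by
  have h := K_spec a c hN (q := 1) (by simp)
  rw [H_one] at h
  have h2 : C c * K a c N 1 = 0 := by rw [h]; simp
  rcases mul_eq_zero.mp h2 with h3 | h3
  · exact absurd (C_eq_zero.mp h3) hc
  · exact h3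

lemma K_X (hc : c ≠ 0) : K a c 1 X = 1 := by
  have h := K_spec a c le_rfl (q := X) (by simp)
  rw [H_X] at h
  have h2 : C c * (K a c 1 X - 1) = 0 := by rw [mul_sub, h]; simp
  rcases mul_eq_zero.mp h2 with h3 | h3
  · exact absurd (C_eq_zero.mp h3) hc
  · exact sub_eq_zero.mp h3

lemma K_add (hc : c ≠ 0) {N : ℕ} (hN : 1 ≤ N) {p q : ℤ[X]} (hp : p.natDegree ≤ N)
    (hq : q.natDegree ≤ N) : K a c N (p + q) = K a c N p + K a c N q := by
  have hC : (C c : ℤ[X]) ≠ 0 := fun h => hc (C_eq_zero.mp h)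
  apply mul_left_cancel₀ hC
  rw [K_spec a c hN ((natDegree_add_le _ _).trans (max_le hp hq)), mul_add, K_spec a c hN hp,
    K_spec a c hN hq, H_add]
  simp only [eval_add, C_add]; ring

lemma K_sub (hc : c ≠ 0) {N : ℕ} (hN : 1 ≤ N) {p q : ℤ[X]} (hp : p.natDegree ≤ N)
    (hq : q.natDegree ≤ N) : K a c N (p - q) = K a c N p - K a c N q := by
  have hC : (C c : ℤ[X]) ≠ 0 := fun h => hc (C_eq_zero.mp h)
  apply mul_left_cancel₀ hC
  rw [K_spec a c hN ((natDegree_sub_le _ _).trans (max_le hp hq)), mul_sub, K_spec a c hN hp,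
    K_spec a c hN hq, H_sub]
  simp only [eval_sub, C_sub]; ring

lemma K_mul (hc : c ≠ 0) {N : ℕ} (hN : 1 ≤ N) {p q : ℤ[X]} (hp : p.natDegree ≤ N)
    (hq : q.natDegree ≤ N) : K a c (N + N) (p * q) =
      K a c N p * H a c N q + C (p.eval a) * X ^ N * K a c N q := by
  have hC : (C c : ℤ[X]) ≠ 0 := fun h => hc (C_eq_zero.mp h)
  apply mul_left_cancel₀ hC
  rw [K_spec a c (by omega) (natDegree_mul_le.trans (Nat.add_le_add hp hq)), H_mul a c hp hq]
  have h1 := K_spec a c hN hp
  have h2 := K_spec a c hN hq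
  have e : C c * (K a c N p * H a c N q + C (p.eval a) * X ^ N * K a c N q) =
      (C c * K a c N p) * H a c N q + C (p.eval a) * X ^ N * (C c * K a c N q) := by ring
  rw [e, h1, h2, eval_mul, C_mul, pow_add]
  ring

lemma K_double (hc : c ≠ 0) {N : ℕ} (hN : 1 ≤ N) {q : ℤ[X]} (hq : q.natDegree ≤ N) :
    K a c (N + N) q = X ^ N * K a c N q := by
  have h := K_mul a hc hN (p := 1) (by simp) hq
  rw [one_mul, K_one a hc hN] at h
  rw [h]; simp

end W206.Tau
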