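import Mathlib
import Pool.Agent.W206.Tau.Inv

set_option autoImplicit false

namespace W206.Tau

open Polynomial

section root

variable (a c : ℤ)

lemma int_of_root {f : ℤ[X]} (hfa : f.eval a = c) {r : ℚ} (hr : aeval r f = 0) :
    ∃ s : ℤ, (s : ℚ) * (r - a) = c := by
  have h1 : aeval (r - a) (f.comp (X + C a)) = 0 := by
    rw [aeval_comp]
    have : aeval (r - a) (X + C a : ℤ[X]) = r := by simp
    rw [this, hr]
  have h2 := num_dvd_of_is_root h1
  have h3 : (f.comp (X + C a)).coeff 0 = c := by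
    rw [coeff_zero_eq_eval_zero, eval_comp]; simp [hfa]
  rw [h3] at h2
  obtain ⟨k, hk⟩ := h2
  refine ⟨k * (IsFractionRing.den ℤ (r - a) : ℤ), ?_⟩
  have h4 := IsFractionRing.mk'_num_den ℤ (r - (a : ℚ))
  rw [IsLocalization.mk'_eq_iff_eq_mul] at h4
  have h5 : (c : ℚ) = (IsFractionRing.num ℤ (r - a) : ℚ) * (k : ℚ) := by
    exact_mod_cast congrArg (Int.cast : ℤ → ℚ) hk
  have h6 : ((IsFractionRing.num ℤ (r - (a : ℚ)) : ℤ) : ℚ) =
      (r - a) * ((IsFractionRing.den ℤ (r - (a : ℚ)) : ℤ) : ℚ) := by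
    simpa using h4
  push_cast
  rw [h5, h6]; ring

lemma root_transfer {f : ℤ[X]} {N : ℕ} (hN : 1 ≤ N) (hf : f.natDegree ≤ N) (hc : c ≠ 0)
    (hfa : f.eval a = c) {r : ℚ} (hr : aeval r f = 0) {s : ℤ} (hs : (s : ℚ) * (r - a) = c) :
    (X ^ N + K a c N f).eval s = 0 := by
  have hcQ : (c : ℚ) ≠ 0 := by exact_mod_cast hc
  have hra : r - a ≠ 0 := by
    intro h; rw [h, mul_zero] at hs; exact hcQ hs.symm
  have hs0 : (s : ℚ) ≠ 0 := by
    intro h; rw [h, zero_mul] at hs; exact hcQ hs.symm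
  have hx : (r - a) / c ≠ (0 : ℚ) := div_ne_zero hra hcQ
  let _ : Invertible ((r - a) / c : ℚ) := invertibleOfNonzero hx
  have h1 : (f.comp (C c * X + C a)).natDegree ≤ N := natDegree_comp_le' a c f hf
  have h2 : eval₂ (Int.castRingHom ℚ) ((r - a) / c) (f.comp (C c * X + C a)) = 0 := by
    rw [eval₂_comp]
    have : eval₂ (Int.castRingHom ℚ) ((r - a) / c) (C c * X + C a : ℤ[X]) = r := by
      rw [eval₂_add, eval₂_mul, eval₂_C, eval₂_C, eval₂_X, eq_intCast, eq_intCast]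
      field_simp; ring
    rw [this]
    exact hr
  have h3 := (eval₂_reflect_eq_zero_iff (Int.castRingHom ℚ) ((r - a) / c) N _ h1).mpr h2
  have h4 : (⅟ ((r - a) / c) : ℚ) = (s : ℚ) := by
    rw [invOf_eq_inv]
    field_simp
    linarith
  rw [h4] at h3
  have h5 : (H a c N f).eval s = 0 := by
    have : eval₂ (Int.castRingHom ℚ) (s : ℚ) (H a c N f) = (((H a c N f).eval s : ℤ) : ℚ) := by
      have := Polynomial.eval₂_at_intCast (p := H a c N f) (Int.castRingHom ℚ) s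
      simpa using this
    have h6 : (((H a c N f).eval s : ℤ) : ℚ) = 0 := by rw [← this]; exact h3
    exact_mod_cast h6
  have h6 := K_spec a c hN hf
  rw [hfa] at h6
  have h7 : C c * (X ^ N + K a c N f) = H a c N f := by
    rw [mul_add, h6]; ring
  have h8 : c * (X ^ N + K a c N f).eval s = 0 := by
    rw [← h5, ← h7]; simp
  rcases mul_eq_zero.mp h8 with h9 | h9
  · exact absurd h9 hc
  · exact h9

end root

section stage

/-- the pool of polynomials at stage `i` -/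
def Pl (a c : ℤ) (p : ℕ → ℤ[X]) (i : ℕ) : Set ℤ[X] :=
  {x | ∃ j < i + 2, x = H a c (2 ^ i) (p j) ∨ x = K a c (2 ^ i) (p j) ∨ x = C ((p j).eval a)}

/-- the straight-line programs of length `n` starting with `1`, `X` -/
def IsSLP (n : ℕ) (p : ℕ → ℤ[X]) : Prop :=
  p 0 = 1 ∧ p 1 = X ∧ ∀ i, 2 ≤ i → i < n + 2 → ∃ j k, j < i ∧ k < i ∧ Op (p j) (p k) (p i)

lemma slp_degree {n : ℕ} {p : ℕ → ℤ[X]} (h : IsSLP n p) :
    ∀ i ≤ n, ∀ j < i + 2, (p j).natDegree ≤ 2 ^ i := by
  intro i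
  induction i with
  | zero =>
    intro _ j hj
    have : j = 0 ∨ j = 1 := by omega
    rcases this with rfl | rfl
    · rw [h.1]; simp
    · rw [h.2.1]; simp
  | succ i ih =>
    intro hi j hj
    have e : 2 ^ (i + 1) = 2 ^ i + 2 ^ i := by ring
    have e1 : 1 ≤ 2 ^ i := Nat.one_le_two_pow
    rcases Nat.lt_succ_iff_lt_or_eq.mp hj with h1 | h1
    · exact (ih (by omega) j (by omega)).trans (by omega)
    · obtain ⟨u, v, hu, hv, hop⟩ := h.2.2 j (by omega) (by omega)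
      have hu' := ih (by omega) u (by omega)
      have hv' := ih (by omega) v (by omega)
      rcases hop with h2 | h2 | h2 <;> rw [h2]
      · exact (natDegree_add_le _ _).trans (max_le (by omega) (by omega))
      · exact (natDegree_sub_le _ _).trans (max_le (by omega) (by omega))
      · exact natDegree_mul_le.trans (by omega)

lemma stage_step {a c : ℤ} (hc : c ≠ 0) {n : ℕ} {p : ℕ → ℤ[X]} (h : IsSLP n p) {i : ℕ}
    (hi : i < n) : Gen (2 * i + 10) (Pl a c p i) (Pl a c p (i + 1)) := by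
  have hdeg := slp_degree h i (by omega)
  have hN : 1 ≤ 2 ^ i := Nat.one_le_two_pow
  have e2 : 2 ^ (i + 1) = 2 ^ i + 2 ^ i := by ring
  set S := Pl a c p i with hS
  have hH : ∀ j < i + 2, H a c (2 ^ i) (p j) ∈ S := fun j hj => ⟨j, hj, Or.inl rfl⟩
  have hK : ∀ j < i + 2, K a c (2 ^ i) (p j) ∈ S := fun j hj => ⟨j, hj, Or.inr (Or.inl rfl)⟩
  have hE : ∀ j < i + 2, C ((p j).eval a) ∈ S := fun j hj => ⟨j, hj, Or.inr (Or.inr rfl)⟩
  have hX : X ^ 2 ^ i ∈ S := by
    have := hH 0 (by omega); rw [h.1, H_one] at this; exact this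
  have g1 := gen_family (S := S) (i + 2) (fun j => H a c (2 ^ (i + 1)) (p j)) (fun j hj =>
    ⟨X ^ 2 ^ i, hX, H a c (2 ^ i) (p j), hH j hj, Or.inr (Or.inr (by
      rw [e2]; exact H_double a c (hdeg j hj)))⟩)
  set S1 := S ∪ {x | ∃ j < i + 2, H a c (2 ^ (i + 1)) (p j) = x} with hS1
  have g2 := gen_family (S := S1) (i + 2) (fun j => K a c (2 ^ (i + 1)) (p j)) (fun j hj =>
    ⟨X ^ 2 ^ i, Or.inl hX, K a c (2 ^ i) (p j), Or.inl (hK j hj), Or.inr (Or.inr (by
      rw [e2]; exact K_double a hc hN (hdeg j hj)))⟩)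
  set S2 := S1 ∪ {x | ∃ j < i + 2, K a c (2 ^ (i + 1)) (p j) = x} with hS2
  have hS12 : S ⊆ S2 := fun x hx => Or.inl (Or.inl hx)
  have hH2 : ∀ j < i + 2, H a c (2 ^ (i + 1)) (p j) ∈ S2 :=
    fun j hj => Or.inl (Or.inr ⟨j, hj, rfl⟩)
  have hK2 : ∀ j < i + 2, K a c (2 ^ (i + 1)) (p j) ∈ S2 :=
    fun j hj => Or.inr ⟨j, hj, rfl⟩
  obtain ⟨u, v, hu, hv, hop⟩ := h.2.2 (i + 2) (by omega) (by omega)
  -- the new elements
  have g3 : Gen 6 S2 (S2 ∪ {H a c (2 ^ (i + 1)) (p (i + 2)), K a c (2 ^ (i + 1)) (p (i + 2)),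
      C ((p (i + 2)).eval a)}) := by
    have k0 : Gen 0 S2 S2 := le_rfl
    have hopE : Op (C ((p u).eval a) : ℤ[X]) (C ((p v).eval a)) (C ((p (i + 2)).eval a)) := by
      have := hop.map (C.comp (evalRingHom a))
      simpa using this
    have k1 : Gen 1 S2 (S2 ∪ {C ((p (i + 2)).eval a)}) := by
      refine gen_mono 1 le_rfl ?_ (gen_one (hS12 (hE u hu)) (hS12 (hE v hv)) hopE)
      rintro x (hx | hx)
      · exact Or.inr hx
      · exact Or.inl hx
    rcases hop with h2 | h2 | h2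
    · -- addition
      have k2 := gen_add k1 (a := H a c (2 ^ (i + 1)) (p u)) (b := H a c (2 ^ (i + 1)) (p v))
        (c := H a c (2 ^ (i + 1)) (p (i + 2))) (Or.inl (hH2 u hu)) (Or.inl (hH2 v hv))
        (Or.inl (by rw [h2, H_add]))
      have k3 := gen_add k2 (a := K a c (2 ^ (i + 1)) (p u)) (b := K a c (2 ^ (i + 1)) (p v))
        (c := K a c (2 ^ (i + 1)) (p (i + 2))) (Or.inl (hK2 u hu)) (Or.inl (hK2 v hv))
        (Or.inl (by rw [h2, K_add a hc (by omega) ((hdeg u hu).trans (by omega))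
          ((hdeg v hv).trans (by omega))]))
      refine gen_pad (by norm_num) ⟨_, hS12 hX⟩ (gen_mono _ le_rfl ?_ k3)
      rintro x (hx | rfl | rfl | rfl)
      · exact Or.inr (Or.inl hx)
      · exact Or.inr (Or.inr (Or.inl rfl))
      · exact Or.inl rfl
      · exact Or.inr (Or.inr (Or.inr (Or.inr (Or.inr rfl))))
    · have k2 := gen_add k1 (a := H a c (2 ^ (i + 1)) (p u)) (b := H a c (2 ^ (i + 1)) (p v))
        (c := H a c (2 ^ (i + 1)) (p (i + 2))) (Or.inl (hH2 u hu)) (Or.inl (hH2 v hv))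
        (Or.inr (Or.inl (by rw [h2, H_sub])))
      have k3 := gen_add k2 (a := K a c (2 ^ (i + 1)) (p u)) (b := K a c (2 ^ (i + 1)) (p v))
        (c := K a c (2 ^ (i + 1)) (p (i + 2))) (Or.inl (hK2 u hu)) (Or.inl (hK2 v hv))
        (Or.inr (Or.inl (by rw [h2, K_sub a hc (by omega) ((hdeg u hu).trans (by omega))
          ((hdeg v hv).trans (by omega))])))
      refine gen_pad (by norm_num) ⟨_, hS12 hX⟩ (gen_mono _ le_rfl ?_ k3)
      rintro x (hx | rfl | rfl | rfl)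
      · exact Or.inr (Or.inl hx)
      · exact Or.inr (Or.inr (Or.inl rfl))
      · exact Or.inl rfl
      · exact Or.inr (Or.inr (Or.inr (Or.inr (Or.inr rfl))))
    · have k2 := gen_add k1 (a := H a c (2 ^ i) (p u)) (b := H a c (2 ^ i) (p v))
        (c := H a c (2 ^ (i + 1)) (p (i + 2))) (Or.inl (hS12 (hH u hu)))
        (Or.inl (hS12 (hH v hv)))
        (Or.inr (Or.inr (by rw [h2, e2]; exact H_mul a c (hdeg u hu) (hdeg v hv))))
      have k3 := gen_add k2 (a := K a c (2 ^ i) (p u)) (b := H a c (2 ^ i) (p v))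
        (c := K a c (2 ^ i) (p u) * H a c (2 ^ i) (p v)) (Or.inl (hS12 (hK u hu)))
        (Or.inl (hS12 (hH v hv))) (Or.inr (Or.inr rfl))
      have k4 := gen_add k3 (a := C ((p u).eval a)) (b := X ^ 2 ^ i)
        (c := C ((p u).eval a) * X ^ 2 ^ i) (Or.inl (hS12 (hE u hu)))
        (Or.inl (hS12 hX)) (Or.inr (Or.inr rfl))
      have k5 := gen_add k4 (a := C ((p u).eval a) * X ^ 2 ^ i) (b := K a c (2 ^ i) (p v))
        (c := C ((p u).eval a) * X ^ 2 ^ i * K a c (2 ^ i) (p v)) (Or.inr (Or.inl rfl))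
        (Or.inl (hS12 (hK v hv))) (Or.inr (Or.inr rfl))
      have k6 := gen_add k5 (a := K a c (2 ^ i) (p u) * H a c (2 ^ i) (p v))
        (b := C ((p u).eval a) * X ^ 2 ^ i * K a c (2 ^ i) (p v))
        (c := K a c (2 ^ (i + 1)) (p (i + 2)))
        (Or.inr (Or.inr (Or.inr (Or.inr (Or.inr (Or.inl rfl))))))
        (Or.inr (Or.inl rfl))
        (Or.inl (by rw [h2, e2]; exact K_mul a hc hN (hdeg u hu) (hdeg v hv)))
      refine gen_mono _ le_rfl ?_ k6
      rintro x (hx | rfl | rfl | rfl)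
      · exact Or.inr (Or.inl hx)
      · exact Or.inr (Or.inr (Or.inr (Or.inr (Or.inr (Or.inr (Or.inr (Or.inr (Or.inl rfl))))))))
      · exact Or.inl rfl
      · exact Or.inr (Or.inr (Or.inr (Or.inr (Or.inr (Or.inr (Or.inr (Or.inr (Or.inr
          (Or.inr (Or.inr rfl))))))))))
  have g12 := gen_trans _ g1 (gen_mono (i + 2) (S' := S ∪ S1)
    (T' := S2) (fun x hx => Or.inr hx) le_rfl g2)
  have g123 := gen_trans _ g12 (gen_mono 6 (S' := S ∪ S2) (fun x hx => Or.inr hx) le_rfl g3)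
  have e3 : i + 2 + (i + 2) + 6 = 2 * i + 10 := by ring
  rw [e3] at g123
  refine gen_mono _ le_rfl ?_ g123
  rintro x ⟨j, hj, hx⟩
  rcases Nat.lt_succ_iff_lt_or_eq.mp hj with h1 | h1
  · rcases hx with rfl | rfl | rfl
    · exact Or.inl (hH2 j (by omega))
    · exact Or.inl (hK2 j (by omega))
    · exact Or.inl (hS12 (hE j (by omega)))
  · have : j = i + 2 := by omega
    subst this
    rcases hx with rfl | rfl | rfl
    · exact Or.inr (Or.inl rfl)
    · exact Or.inr (Or.inr (Or.inl rfl))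
    · exact Or.inr (Or.inr (Or.inr rfl))

lemma stages {a c : ℤ} (hc : c ≠ 0) {n : ℕ} {p : ℕ → ℤ[X]} (h : IsSLP n p) :
    ∀ i ≤ n, Gen (i * i + 9 * i) (Pl a c p 0) (Pl a c p i) := by
  intro i
  induction i with
  | zero => intro _; exact le_rfl
  | succ i ih =>
    intro hi
    have e : (i + 1) * (i + 1) + 9 * (i + 1) = (i * i + 9 * i) + (2 * i + 10) := by ring
    rw [e]
    exact gen_trans _ (ih (by omega)) (gen_mono _ (fun x hx => Or.inr hx) le_rfl
      (stage_step hc h (by omega)))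

end stage

end W206.Tau
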