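import Mathlib
import Pool.Agent.W206.Tau.Stage

set_option autoImplicit false

namespace W206.Tau

open Polynomial

/-- the basic transformation: for a nonzero polynomial computed by a program of length `n` there
is a monic polynomial computed by a program of length `n * n + 12 * n + 5` whose integer roots
are at least as many as the rational roots of the given polynomial -/
theorem monic_transform {n : ℕ} {p : ℕ → ℤ[X]} (h : IsSLP n p) {m : ℕ} (hm : m < n + 2)
    (hf : p m ≠ 0) :
    ∃ q : ℕ → ℤ[X], IsSLP (n * n + 12 * n + 5) q ∧ ∃ m' < n * n + 12 * n + 5 + 2,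
      (q m').Monic ∧ ((p m).map (Int.castRingHom ℚ)).roots.toFinset.card ≤
        (q m').roots.toFinset.card := by
  classical
  set f := p m with hfdef
  have hdeg : f.natDegree ≤ 2 ^ n := slp_degree h n le_rfl m hm
  -- a point where f does not vanish
  obtain ⟨b, hb, hfb⟩ : ∃ b : ℕ, b ≤ 2 ^ n ∧ f.eval (b : ℤ) ≠ 0 := by
    by_contra hcon
    push Not at hcon
    have h1 : (Finset.image (fun b : ℕ => (b : ℤ)) (Finset.range (2 ^ n + 1))) ⊆
        f.roots.toFinset := by
      intro x hx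
      obtain ⟨b, hb, rfl⟩ := Finset.mem_image.mp hx
      rw [Finset.mem_range] at hb
      rw [Multiset.mem_toFinset, mem_roots hf]
      exact hcon b (by omega)
    have h2 := Finset.card_le_card h1
    rw [Finset.card_image_of_injective _ Nat.cast_injective, Finset.card_range] at h2
    have h3 := Multiset.toFinset_card_le f.roots
    have h4 := card_roots' f
    omega
  set a : ℤ := (b : ℤ) with ha
  set c : ℤ := f.eval a with hc
  have hN : 1 ≤ 2 ^ n := Nat.one_le_two_pow
  set F : ℤ[X] := X ^ (2 ^ n) + K a c (2 ^ n) f with hF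
  have hmonic : F.Monic := by
    refine monic_X_pow_add ?_
    refine lt_of_le_of_lt degree_le_natDegree ?_
    have := natDegree_K_le a c hdeg
    exact_mod_cast (show (K a c (2 ^ n) f).natDegree < 2 ^ n by omega)
  -- cost
  have g0 : Gen (2 * n + 1) ({1, X} : Set ℤ[X]) (insert (C a) {1, X}) := by
    have := gen_nat (S := ({1, X} : Set ℤ[X])) (Or.inl rfl) n b hb
    simpa [ha] using this
  have g1 : Gen n (insert (C a) ({1, X} : Set ℤ[X])) {C c} := by
    have h1 := gen_of_fun p n 2 (fun i hi hi' => h.2.2 i hi (by omega))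
    have h2 := gen_map (C.comp (evalRingHom a)) n h1
    refine gen_mono n ?_ ?_ h2
    · rintro x ⟨y, ⟨i, hi, rfl⟩, rfl⟩
      have : i = 0 ∨ i = 1 := by omega
      rcases this with rfl | rfl
      · rw [h.1]; right; left; simp
      · rw [h.2.1]; left; simp
    · rintro x rfl
      refine ⟨f, ⟨m, by omega, rfl⟩, ?_⟩
      simp [hc]
  have g2 : Gen (2 * n + 1 + n) ({1, X} : Set ℤ[X]) {1, X, C a, C c} := by
    have g1' := gen_mono n (S' := ({1, X} : Set ℤ[X]) ∪ insert (C a) {1, X})
      (fun x hx => Or.inr hx) le_rfl (gen_keep n g1)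
    refine gen_mono _ le_rfl ?_ (gen_trans _ g0 g1')
    rintro x (rfl | rfl | rfl | rfl)
    · exact Or.inl (Or.inr (Or.inl rfl))
    · exact Or.inl (Or.inr (Or.inr rfl))
    · exact Or.inl (Or.inl rfl)
    · exact Or.inr rfl
  have g3 := gen_add g2 (a := C a) (b := X) (c := C a * X)
    (Or.inr (Or.inr (Or.inr (Or.inl rfl)))) (Or.inr (Or.inr (Or.inl rfl))) (Or.inr (Or.inr rfl))
  have g4 := gen_add g3 (a := C c) (b := C a * X) (c := C c + C a * X)
    (Or.inr (Or.inr (Or.inr (Or.inr (Or.inr (Or.inr rfl)))))) (Or.inr (Or.inl rfl)) (Or.inl rfl)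
  have g5 := gen_add g4 (a := 1) (b := 1) (c := (0 : ℤ[X]))
    (Or.inl (Or.inl rfl)) (Or.inl (Or.inl rfl)) (Or.inr (Or.inl (by simp)))
  have g6 : Gen (3 * n + 4) ({1, X} : Set ℤ[X]) (Pl a c p 0) := by
    have e : 3 * n + 4 = 2 * n + 1 + n + 1 + 1 + 1 := by ring
    rw [e]
    refine gen_mono _ le_rfl ?_ g5
    rintro x ⟨j, hj, hx⟩
    have : j = 0 ∨ j = 1 := by omega
    rcases this with rfl | rfl
    · rw [h.1] at hx
      rcases hx with rfl | rfl | rfl
      · rw [H_one]; exact Or.inr (Or.inl (Or.inr (by simp)))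
      · rw [pow_zero, K_one a hfb le_rfl]; exact Or.inl rfl
      · exact Or.inr (Or.inl (Or.inl (by simp)))
    · rw [h.2.1] at hx
      rcases hx with rfl | rfl | rfl
      · rw [pow_zero, H_X]; exact Or.inr (Or.inr (Or.inl rfl))
      · rw [pow_zero, K_X a hfb]; exact Or.inr (Or.inl (Or.inl rfl))
      · rw [eval_X]
        exact Or.inr (Or.inr (Or.inr (Or.inr (Or.inr (Or.inr (Or.inr (Or.inr
          (Or.inl rfl))))))))
  have g7 := gen_trans _ g6 (gen_mono _ (S' := ({1, X} : Set ℤ[X]) ∪ Pl a c p 0)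
    (fun x hx => Or.inr hx) le_rfl (stages hfb h n le_rfl))
  have g8 := gen_add g7 (a := X ^ 2 ^ n) (b := K a c (2 ^ n) f) (c := F)
    (Or.inr ⟨0, by omega, Or.inl (by rw [h.1, H_one])⟩) (Or.inr ⟨m, hm, Or.inr (Or.inl rfl)⟩)
    (Or.inl rfl)
  have e9 : 3 * n + 4 + (n * n + 9 * n) + 1 = n * n + 12 * n + 5 := by ring
  rw [e9] at g8
  obtain ⟨q, hq1, hq2, hq3⟩ := fun_of_gen (n * n + 12 * n + 5) 2
    (fun i => if i = 0 then (1 : ℤ[X]) else X) {1, X} _ (by
      rintro x (rfl | rfl)
      · exact ⟨0, by omega, by simp⟩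
      · exact ⟨1, by omega, by simp⟩) g8
  have hq : IsSLP (n * n + 12 * n + 5) q := by
    refine ⟨by simpa using hq1 0 (by omega), by simpa using hq1 1 (by omega), ?_⟩
    intro i hi hi'
    exact hq2 i hi (by omega)
  obtain ⟨m', hm', hFm⟩ := hq3 (Or.inl rfl)
  refine ⟨q, hq, m', by omega, by rw [hFm]; exact hmonic, ?_⟩
  rw [hFm]
  -- roots
  have key : ∀ r ∈ (f.map (Int.castRingHom ℚ)).roots.toFinset,
      ∃ s : ℤ, (s : ℚ) * (r - a) = c ∧ s ∈ F.roots.toFinset := by
    intro r hr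
    rw [Multiset.mem_toFinset] at hr
    have h1 : aeval r f = 0 := by
      have := (mem_roots'.mp hr).2
      rw [IsRoot.def, eval_map] at this
      exact this
    obtain ⟨s, hs⟩ := int_of_root a c (f := f) rfl h1
    refine ⟨s, hs, ?_⟩
    rw [Multiset.mem_toFinset, mem_roots hmonic.ne_zero]
    exact root_transfer a c hN hdeg hfb rfl h1 hs
  choose! s hs1 hs2 using key
  refine Finset.card_le_card_of_injOn s (fun r hr => hs2 r hr) ?_
  intro r hr r' hr' hrr
  have h1 := hs1 r hr
  have h2 := hs1 r' hr'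
  rw [← hrr] at h2
  have hcQ : (c : ℚ) ≠ 0 := by exact_mod_cast hfb
  have hs0 : ((s r : ℤ) : ℚ) ≠ 0 := by
    intro h0; rw [h0, zero_mul] at h1; exact hcQ h1.symm
  have h3 : ((s r : ℤ) : ℚ) * (r - a) = (s r : ℤ) * (r' - a) := by rw [h1, h2]
  have h4 := mul_left_cancel₀ hs0 h3
  linarith

/-- integer polynomials as rational functions over `ℚ` -/
noncomputable def io : ℤ[X] →+* RatFunc ℚ :=
  (algebraMap ℚ[X] (RatFunc ℚ)).comp (mapRingHom (Int.castRingHom ℚ))

lemma io_inj : Function.Injective io := by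
  have h1 : Function.Injective (algebraMap ℚ[X] (RatFunc ℚ)) := RatFunc.algebraMap_injective ℚ
  have h2 : Function.Injective (mapRingHom (Int.castRingHom ℚ) : ℤ[X] →+* ℚ[X]) := by
    intro x y hxy
    exact map_injective (Int.castRingHom ℚ) Int.cast_injective hxy
  intro x y hxy
  exact h2 (h1 hxy)

lemma io_ne {q : ℤ[X]} (hq : q ≠ 0) : io q ≠ 0 := by
  intro h
  exact hq (io_inj (by rw [h, map_zero]))

/-- straight-line programs of length `L` with division -/
def IsDivSLP (L : ℕ) (g : ℕ → RatFunc ℚ) : Prop :=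
  g 0 = 1 ∧ g 1 = RatFunc.X ∧ ∀ k, 2 ≤ k → k ≤ L + 1 → ∃ i < k, ∃ j < k,
    g k = g i + g j ∨ g k = g i - g j ∨ g k = g i * g j ∨ (g j ≠ 0 ∧ g k = g i / g j)

lemma div_elim {L : ℕ} {g : ℕ → RatFunc ℚ} (h : IsDivSLP L g) : ∀ i ≤ L,
    ∃ P Q : ℕ → ℤ[X], (∀ k < i + 2, Q k ≠ 0 ∧ g k * io (Q k) = io (P k)) ∧
      Gen (4 * i) ({1, X} : Set ℤ[X]) {x | ∃ k < i + 2, x = P k ∨ x = Q k} := by
  intro i
  induction i with
  | zero =>
    intro _
    refine ⟨fun k => if k = 0 then 1 else X, fun _ => 1, ?_, ?_⟩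
    · intro k hk
      have : k = 0 ∨ k = 1 := by omega
      rcases this with rfl | rfl
      · refine ⟨one_ne_zero, ?_⟩
        rw [h.1]; simp
      · refine ⟨one_ne_zero, ?_⟩
        rw [h.2.1]; simp [io]
    · rintro x ⟨k, hk, hx⟩
      rcases hx with rfl | rfl
      · by_cases hk0 : k = 0
        · simp [hk0]
        · simp [hk0]
      · simp
  | succ i ih =>
    intro hi
    obtain ⟨P, Q, h1, h2⟩ := ih (by omega)
    obtain ⟨u, hu, v, hv, hop⟩ := h.2.2 (i + 2) (by omega) (by omega)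
    obtain ⟨hQu, hgu⟩ := h1 u hu
    obtain ⟨hQv, hgv⟩ := h1 v hv
    set T : Set ℤ[X] := {x | ∃ k < i + 2, x = P k ∨ x = Q k} with hT
    have mPu : P u ∈ T := ⟨u, hu, Or.inl rfl⟩
    have mQu : Q u ∈ T := ⟨u, hu, Or.inr rfl⟩
    have mPv : P v ∈ T := ⟨v, hv, Or.inl rfl⟩
    have mQv : Q v ∈ T := ⟨v, hv, Or.inr rfl⟩
    -- it is enough to find the new pair
    suffices hnew : ∃ A B : ℤ[X], B ≠ 0 ∧ g (i + 2) * io B = io A ∧
        Gen (4 * i + 4) ({1, X} : Set ℤ[X]) (({1, X} ∪ T) ∪ {A, B}) by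
      obtain ⟨A, B, hB, hgB, hgen⟩ := hnew
      refine ⟨Function.update P (i + 2) A, Function.update Q (i + 2) B, ?_, ?_⟩
      · intro k hk
        rcases Nat.lt_succ_iff_lt_or_eq.mp hk with hk' | hk'
        · rw [Function.update_of_ne (by omega), Function.update_of_ne (by omega)]
          exact h1 k (by omega)
        · have : k = i + 2 := by omega
          subst this
          rw [Function.update_self, Function.update_self]
          exact ⟨hB, hgB⟩
      · refine gen_mono _ le_rfl ?_ hgen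
        rintro x ⟨k, hk, hx⟩
        rcases Nat.lt_succ_iff_lt_or_eq.mp hk with hk' | hk'
        · rw [Function.update_of_ne (by omega), Function.update_of_ne (by omega)] at hx
          exact Or.inl (Or.inr ⟨k, by omega, hx⟩)
        · have : k = i + 2 := by omega
          subst this
          rw [Function.update_self, Function.update_self] at hx
          rcases hx with rfl | rfl
          · exact Or.inr (Or.inl rfl)
          · exact Or.inr (Or.inr rfl)
    have k1 := gen_add h2 (a := P u) (b := Q v) (c := P u * Q v) (Or.inr mPu) (Or.inr mQv)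
      (Or.inr (Or.inr rfl))
    rcases hop with ho | ho | ho | ⟨hv0, ho⟩
    · have k2 := gen_add k1 (a := P v) (b := Q u) (c := P v * Q u)
        (Or.inr (Or.inr (Or.inr mPv))) (Or.inr (Or.inr (Or.inr mQu))) (Or.inr (Or.inr rfl))
      have k3 := gen_add k2 (a := P u * Q v) (b := P v * Q u) (c := P u * Q v + P v * Q u)
        (Or.inr (Or.inr (Or.inr (Or.inl rfl)))) (Or.inr (Or.inl rfl)) (Or.inl rfl)
      have k4 := gen_add k3 (a := Q u) (b := Q v) (c := Q u * Q v)
        (Or.inr (Or.inr (Or.inr (Or.inr (Or.inr (Or.inr (Or.inr mQu)))))))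
        (Or.inr (Or.inr (Or.inr (Or.inr (Or.inr (Or.inr (Or.inr mQv)))))))
        (Or.inr (Or.inr rfl))
      refine ⟨P u * Q v + P v * Q u, Q u * Q v, mul_ne_zero hQu hQv, ?_, ?_⟩
      · rw [ho, map_add, map_mul, map_mul, map_mul, ← hgu, ← hgv]; ring
      · refine gen_mono _ le_rfl ?_ k4
        rintro x ((hx | hx) | rfl | rfl)
        · exact Or.inr (Or.inl hx)
        · exact Or.inr (Or.inr (Or.inr (Or.inr (Or.inr (Or.inr (Or.inr (Or.inr hx)))))))
        · exact Or.inr (Or.inr (Or.inl rfl))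
        · exact Or.inl rfl
    · have k2 := gen_add k1 (a := P v) (b := Q u) (c := P v * Q u)
        (Or.inr (Or.inr (Or.inr mPv))) (Or.inr (Or.inr (Or.inr mQu))) (Or.inr (Or.inr rfl))
      have k3 := gen_add k2 (a := P u * Q v) (b := P v * Q u) (c := P u * Q v - P v * Q u)
        (Or.inr (Or.inr (Or.inr (Or.inl rfl)))) (Or.inr (Or.inl rfl)) (Or.inr (Or.inl rfl))
      have k4 := gen_add k3 (a := Q u) (b := Q v) (c := Q u * Q v)
        (Or.inr (Or.inr (Or.inr (Or.inr (Or.inr (Or.inr (Or.inr mQu)))))))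
        (Or.inr (Or.inr (Or.inr (Or.inr (Or.inr (Or.inr (Or.inr mQv)))))))
        (Or.inr (Or.inr rfl))
      refine ⟨P u * Q v - P v * Q u, Q u * Q v, mul_ne_zero hQu hQv, ?_, ?_⟩
      · rw [ho, map_sub, map_mul, map_mul, map_mul, ← hgu, ← hgv]; ring
      · refine gen_mono _ le_rfl ?_ k4
        rintro x ((hx | hx) | rfl | rfl)
        · exact Or.inr (Or.inl hx)
        · exact Or.inr (Or.inr (Or.inr (Or.inr (Or.inr (Or.inr (Or.inr (Or.inr hx)))))))
        · exact Or.inr (Or.inr (Or.inl rfl))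
        · exact Or.inl rfl
    · have k2 := gen_add h2 (a := P u) (b := P v) (c := P u * P v) (Or.inr mPu) (Or.inr mPv)
        (Or.inr (Or.inr rfl))
      have k3 := gen_add k2 (a := Q u) (b := Q v) (c := Q u * Q v)
        (Or.inr (Or.inr (Or.inr mQu))) (Or.inr (Or.inr (Or.inr mQv))) (Or.inr (Or.inr rfl))
      refine ⟨P u * P v, Q u * Q v, mul_ne_zero hQu hQv, ?_, ?_⟩
      · rw [ho, map_mul, map_mul, ← hgu, ← hgv]; ring
      · refine gen_pad (by omega) ⟨1, Or.inl rfl⟩ (gen_mono _ le_rfl ?_ k3)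
        rintro x ((hx | hx) | rfl | rfl)
        · exact Or.inr (Or.inl hx)
        · exact Or.inr (Or.inr (Or.inr (Or.inr hx)))
        · exact Or.inr (Or.inr (Or.inl rfl))
        · exact Or.inl rfl
    · have hPv : P v ≠ 0 := by
        intro h0
        rw [h0, map_zero] at hgv
        rcases mul_eq_zero.mp hgv with h3 | h3
        · exact hv0 h3
        · exact io_ne hQv h3
      have k2 := gen_add k1 (a := Q u) (b := P v) (c := Q u * P v)
        (Or.inr (Or.inr (Or.inr mQu))) (Or.inr (Or.inr (Or.inr mPv))) (Or.inr (Or.inr rfl))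
      refine ⟨P u * Q v, Q u * P v, mul_ne_zero hQu hPv, ?_, ?_⟩
      · rw [ho, map_mul, map_mul, ← hgu, ← hgv]
        field_simp
      · refine gen_pad (by omega) ⟨1, Or.inl rfl⟩ (gen_mono _ le_rfl ?_ k2)
        rintro x ((hx | hx) | rfl | rfl)
        · exact Or.inr (Or.inl hx)
        · exact Or.inr (Or.inr (Or.inr (Or.inr hx)))
        · exact Or.inr (Or.inr (Or.inl rfl))
        · exact Or.inl rfl

end W206.Tau
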